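import Pool.Agent.H166R3.HD.Final
import Pool.Agent.H454R3.Att.Dens

set_option autoImplicit false

/-!
# Project DG: the distance-1/2 graph on the Turing degrees has diameter three

Definitions.  Library: `Pool.Agent.H166R3.HD` (recursive functions and predicates `RecT`, `RP`
relative to a set of oracles, codes `enc X n` of initial segments, the measure `cm`, effectively
closed classes `Cl q`, forcing) and `Pool.Agent.Helper743` (`TR`, `use_principle`).
-/

namespace Pool.Agent.Q205.DG

open Pool.Agent.Helper743 Pool.Agent.H166R3.HD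
open MeasureTheory Filter Topology
open scoped Classical ENNReal

/-- `d / m > 1/2 + 1/(2k)` -/
def Far (k d m : ℕ) : Prop := (k + 1) * m < 2 * k * d

/-- the zero oracle -/
def G0 : ℕ → ℕ := fun _ => 0

/-- the word function `ev` converges on the point `X` (with the oracle `0 ⊕ X`), with values `u` -/
def Conv (ev : List ℕ → ℕ → Option ℕ) (X : ℕ → Bool) (u : ℕ → ℕ) : Prop :=
  ∀ i, ∃ t, ev (pre (J G0 X) t) i = some (u i)

/-- the number of disagreements below `m` of two number sequences, considered as zero-one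
sequences by `u i = 1` -/
noncomputable def dd (u v : ℕ → ℕ) (m : ℕ) : ℕ :=
  ((Finset.range m).filter (fun i => ¬ (u i = 1 ↔ v i = 1))).card

/-- `v` is coarsely within `1/2 + 1/(2k)` of the value of the functional `ev` at `X`, for some `v`
recursive in `O` -/
def App (O : Set (ℕ →. ℕ)) (ev : List ℕ → ℕ → Option ℕ) (k : ℕ) : Set (ℕ → Bool) :=
  {X | ∀ u, Conv ev X u → ∃ v, RecT O v ∧ (∀ i, v i ≤ 1) ∧ ∃ n, ∀ m ≥ n, ¬ Far k (dd u v m) m}

/-- `X` is coarsely within `1/2 + 1/(2k)` of `v` -/
def Ran (v : ℕ → ℕ) (k : ℕ) : Set (ℕ → Bool) := {X | ∃ n, ∀ m ≥ n, ¬ Far k (disX v m X) m}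

/-- the second coordinate is coarsely within `1/2 + 1/(2k)` of the value of `ev` at the first -/
def Ind (ev : List ℕ → ℕ → Option ℕ) (k : ℕ) : Set ((ℕ → Bool) × (ℕ → Bool)) :=
  {p | ∀ u, Conv ev p.1 u → ∃ n, ∀ m ≥ n, ¬ Far k (disX u m p.2) m}

/-- the class of the pairs no pair of initial segments of the same length of which satisfies `w` -/
def Cl2 (w : ℕ → Prop) : Set ((ℕ → Bool) × (ℕ → Bool)) :=
  {p | ∀ n, ¬ w (Nat.pair n (Nat.pair (enc p.1 n) (enc p.2 n)))}

/-- the product measure -/
noncomputable def cm2 : Measure ((ℕ → Bool) × (ℕ → Bool)) := cm.prod cm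

instance : IsProbabilityMeasure cm2 := by unfold cm2; infer_instance

/-- conditions: a class recursive in `O1` for the first coordinate, a class recursive in `O2` for
the second one, and a recursive class of pairs, the intersection having positive measure -/
def IsCond (O1 O2 : Set (ℕ →. ℕ)) (K : Set ((ℕ → Bool) × (ℕ → Bool))) : Prop :=
  ∃ q1 q2 w : ℕ → Prop, RP O1 q1 ∧ RP O2 q2 ∧ RP ∅ w ∧ K = (Cl q1 ×ˢ Cl q2) ∩ Cl2 w ∧ 0 < cm2 K

end Pool.Agent.Q205.DG
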