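import Pool.Agent.Q205.DG.Stm

set_option autoImplicit false

/-! The diameter, from the main lemmas. -/

namespace Pool.Agent.Q205.DG

open Pool.Agent.Helper743 Pool.Agent.H166R3.HD
open Filter Topology
open scoped Classical ENNReal

lemma deg_surj (d : Degree) : ∃ X : ℕ → Bool, deg {n | X n = true} = d := by
  obtain ⟨S, hS⟩ := Quotient.exists_rep d
  refine ⟨fun n => decide (n ∈ S), ?_⟩
  have : {n | decide (n ∈ S) = true} = S := by ext n; simp
  rw [this]
  exact hS

lemma le_iff_TR (A B : Set ℕ) : Le A B ↔ TR (chi A) (chi B) := by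
  rw [TR_iff]
  rfl

lemma H_comm (a b : Degree) : H a b = H b a := by
  unfold H
  exact Metric.hausdorffDist_comm

lemma H_self (a : Degree) : H a a = 0 := Metric.hausdorffDist_self_zero

lemma computable_of_le_empty {Y : Set ℕ} (h : Le Y ∅) : ComputablePred (fun n => n ∈ Y) := by
  have h1 : TR (chi Y) (chi ∅) := (le_iff_TR _ _).1 h
  have h2 : RecT ∅ (chi ∅) := by
    refine RecT.congr (recT_const 0) fun n => ?_
    simp [chi]
  have h3 : Computable (chi Y) := recT_empty (h1.of_recT h2)
  have h4 : Computable (fun n => decide (chi Y n = 1)) :=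
    (Primrec.eq.decide (α := ℕ)).to_comp.comp h3 (Computable.const 1)
  refine ⟨fun n => Classical.dec _, h4.of_eq fun n => ?_⟩
  by_cases h : n ∈ Y <;> simp [chi, h]

theorem fin_of (hMAIN : S_MAIN) (hHH : S_HH) (hDIS : S_DIS) (hL1 : S_L1) (hL2 : S_L2) :
    graph.ediam = 3 := by
  refine le_antisymm ?_ ?_
  · rw [SimpleGraph.ediam_le_iff]
    intro a b
    obtain ⟨A, rfl⟩ := deg_surj a
    obtain ⟨B, rfl⟩ := deg_surj b
    obtain ⟨C, D, h1, h2, h3, h4, h5, h6⟩ := hMAIN A B
    have e1 := hHH A C h1 h2
    have e2 := hHH B D h3 h4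
    have e3 : graph.Adj (deg {n | C n = true}) (deg {n | D n = true}) := by
      refine hHH C D (fun k hk u hu => ⟨hat C, TR.refl _, fun i => Bool.toNat_le _, ?_⟩)
        (fun k hk v hv => h5 k hk v hv)
      obtain ⟨n, hn⟩ := h6 k hk u hu
      refine ⟨n, fun m hm => ?_⟩
      have : dd u (hat C) m = disX u m C := by
        unfold dd disX hat
        congr 1
        apply Finset.filter_congr
        intro i _
        cases C i <;> simp
      rw [this]
      exact hn m hm
    exact (graph.edist_le ((e1.toWalk.append e3.toWalk).append e2.symm.toWalk)).trans (by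
      simp)
  · obtain ⟨Z, X, hXZ, hX⟩ := hL2
    -- a degree all of whose functions are computably bounded is at distance at least one from `Z`
    have key : ∀ C : Set ℕ, (∀ f : ℕ → ℕ, TR f (chi C) → ∃ g : ℕ → ℕ, Computable g ∧
        ∀ n, f n ≤ g n) → 1 ≤ H (deg Z) (deg C) := by
      intro C hC
      refine hDIS Z C X hXZ fun Y hY => ?_
      rcases hX Y with h | ⟨f, hf, h⟩
      · exact h
      · obtain ⟨g, hg, hfg⟩ := hC f (hf.trans ((le_iff_TR _ _).1 hY))
        obtain ⟨n, hn⟩ := h g hg
        exact absurd (hfg n) (by omega)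
    have h0 : 1 ≤ H (deg Z) (deg ∅) := by
      refine key ∅ fun f hf => ⟨f, ?_, fun n => le_rfl⟩
      have h2 : RecT ∅ (chi ∅) := by
        refine RecT.congr (recT_const 0) fun n => ?_
        simp [chi]
      exact recT_empty (hf.of_recT h2)
    have hne : deg Z ≠ deg ∅ := by
      intro h
      rw [h, H_self] at h0
      norm_num at h0
    have hlt : 2 < graph.edist (deg Z) (deg ∅) := by
      rw [SimpleGraph.two_lt_edist_iff]
      refine ⟨hne, fun h => ?_, ?_⟩
      · rw [h.2] at h0
        norm_num at h0
      · rw [Set.eq_empty_iff_forall_notMem]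
        rintro c ⟨hc1, hc2⟩
        have hc1 : graph.Adj (deg Z) c := hc1
        have hc2 : graph.Adj (deg ∅) c := hc2
        obtain ⟨C, rfl⟩ := Quotient.exists_rep c
        change graph.Adj (deg Z) (deg C) at hc1
        change graph.Adj (deg ∅) (deg C) at hc2
        by_cases hC : ∀ f : ℕ → ℕ, TR f (chi C) → ∃ g : ℕ → ℕ, Computable g ∧ ∀ n, f n ≤ g n
        · have := key C hC
          rw [hc1.2] at this
          norm_num at this
        · push Not at hC
          obtain ⟨f, hf, h⟩ := hC
          obtain ⟨X', hX', hY⟩ := hL1 C f hf h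
          have := hDIS C ∅ X' hX' fun Y hYe N => hY Y (computable_of_le_empty hYe) N
          rw [H_comm, hc2.2] at this
          norm_num at this
    have h3 : (3 : ℕ∞) ≤ graph.edist (deg Z) (deg ∅) := by
      have := Order.add_one_le_of_lt hlt
      norm_num at this
      exact this
    exact h3.trans graph.edist_le_ediam

end Pool.Agent.Q205.DG
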