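import Pool.Agent.Q205.DG.Stm

set_option autoImplicit false

/-! The forcing construction, from the steps. -/

namespace Pool.Agent.Q205.DG

open Pool.Agent.Helper743 Pool.Agent.H166R3.HD
open MeasureTheory Filter Topology
open scoped Classical ENNReal

abbrev Pl : Type := (ℕ → Bool) × (ℕ → Bool)

/-- fusion in the plane -/
theorem fusion2 {C : Set (Set Pl)} (hne : ∀ K ∈ C, K.Nonempty) (hcl : ∀ K ∈ C, IsClosed K)
    {ι : Type*} [Countable ι] (Req : ι → Set Pl)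
    (hstep : ∀ K ∈ C, ∀ i, ∃ K' ∈ C, K' ⊆ K ∧ K' ⊆ Req i) {K0 : Set Pl} (h0 : K0 ∈ C) :
    ∃ X ∈ K0, ∀ i, X ∈ Req i := by
  rcases isEmpty_or_nonempty ι with hι | hι
  · obtain ⟨X, hX⟩ := hne K0 h0
    exact ⟨X, hX, fun i => (hι.false i).elim⟩
  · obtain ⟨e, he⟩ := exists_surjective_nat ι
    choose! nx h1 h2 h3 using hstep
    let s : ℕ → C := fun n => Nat.rec ⟨K0, h0⟩
      (fun n K => ⟨nx K.1 (e n), h1 K.1 K.2 (e n)⟩) n
    have hs : ∀ n, (s (n+1)).1 = nx (s n).1 (e n) := fun n => rfl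
    have hnonempty := IsCompact.nonempty_iInter_of_sequence_nonempty_isCompact_isClosed
      (fun n => (s n).1) (fun n => by
        show (s (n+1)).1 ⊆ (s n).1
        rw [hs]; exact h2 _ (s n).2 _) (fun n => hne _ (s n).2)
      ((hcl _ (s 0).2).isCompact) (fun n => hcl _ (s n).2)
    obtain ⟨X, hX⟩ := hnonempty
    rw [Set.mem_iInter] at hX
    refine ⟨X, hX 0, fun i => ?_⟩
    obtain ⟨n, rfl⟩ := he i
    have := hX (n+1)
    rw [hs] at this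
    exact h3 _ (s n).2 _ this

lemma Cl2_eq (w : ℕ → Prop) :
    Cl2 w = ⋂ n, {p : Pl | ¬ w (Nat.pair n (Nat.pair (enc p.1 n) (enc p.2 n)))} := by
  ext p; simp [Cl2]

lemma isClosed_Cl2 (w : ℕ → Prop) : IsClosed (Cl2 w) := by
  rw [Cl2_eq]
  refine isClosed_iInter fun n => ?_
  have hc : Continuous (fun p : Pl => (enc p.1 n, enc p.2 n)) :=
    ((continuous_enc n).comp continuous_fst).prodMk ((continuous_enc n).comp continuous_snd)
  exact (isClosed_discrete {k : ℕ × ℕ | ¬ w (Nat.pair n (Nat.pair k.1 k.2))}).preimage hc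

lemma IsCond.isClosed {O1 O2 : Set (ℕ →. ℕ)} {K : Set Pl} (h : IsCond O1 O2 K) : IsClosed K := by
  obtain ⟨q1, q2, w, _, _, _, rfl, _⟩ := h
  exact ((isClosed_Cl q1).prod (isClosed_Cl q2)).inter (isClosed_Cl2 w)

lemma IsCond.nonempty {O1 O2 : Set (ℕ →. ℕ)} {K : Set Pl} (h : IsCond O1 O2 K) :
    K.Nonempty := by
  obtain ⟨q1, q2, w, _, _, _, rfl, h⟩ := h
  exact nonempty_of_measure_ne_zero h.ne'

lemma IsCond.swap {O1 O2 : Set (ℕ →. ℕ)} {K : Set Pl} (h : IsCond O1 O2 K) :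
    IsCond O2 O1 (Prod.swap ⁻¹' K) := by
  obtain ⟨q1, q2, w, h1, h2, h3, rfl, h4⟩ := h
  refine ⟨q2, q1, fun z => w (Nat.pair z.unpair.1 (Nat.pair z.unpair.2.unpair.2
    z.unpair.2.unpair.1)), h2, h1, ?_, ?_, ?_⟩
  · exact RP.comp h3 (RecT.pair (RecT.fst recT_id) (RecT.pair (RecT.snd (RecT.snd recT_id))
      (RecT.fst (RecT.snd recT_id))))
  · ext ⟨X, Y⟩
    simp only [Set.mem_preimage, Prod.swap_prod_mk, Set.mem_inter_iff, Set.mem_prod, Cl2,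
      Set.mem_ofPred_eq, Nat.unpair_pair]
    tauto
  · unfold cm2
    rw [← Measure.map_apply measurable_swap, Measure.prod_swap]
    · exact h4
    · exact (((isClosed_Cl q1).prod (isClosed_Cl q2)).inter (isClosed_Cl2 w)).measurableSet

variable {O1 O2 : Set (ℕ →. ℕ)}

/-- a requirement for the first coordinate -/
lemma step_fst (hRED : S_RED) {R : Set (ℕ → Bool)}
    (hR : ∀ q : ℕ → Prop, RP O1 q → 0 < cm (Cl q) →
      ∃ q' : ℕ → Prop, RP O1 q' ∧ 0 < cm (Cl q') ∧ Cl q' ⊆ Cl q ∧ Cl q' ⊆ R) {K : Set Pl}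
    (hK : IsCond O1 O2 K) : ∃ K', IsCond O1 O2 K' ∧ K' ⊆ K ∧ K' ⊆ Prod.fst ⁻¹' R := by
  obtain ⟨q1, q2, w, h1, h2, h3, rfl, h4⟩ := hK
  obtain ⟨q1', q2', g1, g2, g3, g4, g5, g6⟩ := hRED O1 O2 q1 q2 w h1 h2 h3 h4
  obtain ⟨q, k1, k2, k3, k4⟩ := hR q1' g1 g5
  refine ⟨(Cl q ×ˢ Cl q2') ∩ Cl2 w, ⟨q, q2', w, k1, g2, h3, rfl, ?_⟩, ?_, ?_⟩
  · exact g6 (Cl q) (meas_Cl q) k3 k2
  · rintro p ⟨⟨p1, p2⟩, p3⟩
    exact ⟨⟨g3 (k3 p1), g4 p2⟩, p3⟩
  · rintro p ⟨⟨p1, p2⟩, p3⟩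
    exact k4 p1

/-- the same for a requirement for the pair, from the first coordinate to the second -/
lemma step_swap {R : Set Pl}
    (hR : ∀ K, IsCond O2 O1 K → ∃ K', IsCond O2 O1 K' ∧ K' ⊆ K ∧ K' ⊆ R) {K : Set Pl}
    (hK : IsCond O1 O2 K) : ∃ K', IsCond O1 O2 K' ∧ K' ⊆ K ∧ K' ⊆ Prod.swap ⁻¹' R := by
  obtain ⟨K', h1, h2, h3⟩ := hR _ hK.swap
  refine ⟨_, h1.swap, ?_, ?_⟩
  · rintro ⟨X, Y⟩ hp
    exact h2 hp
  · exact fun p hp => h3 hp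

lemma step_app (hTOT : S_TOT) (hMAJ : S_MAJ) {O : Set (ℕ →. ℕ)} (ev : Fun) {k : ℕ} (hk : 1 ≤ k)
    (q : ℕ → Prop) (hq : RP O q) (hpos : 0 < cm (Cl q)) :
    ∃ q' : ℕ → Prop, RP O q' ∧ 0 < cm (Cl q') ∧ Cl q' ⊆ Cl q ∧ Cl q' ⊆ App O ev.1 k := by
  obtain ⟨q1, h1, h2, h3, h4 | ⟨g, hg, h4⟩⟩ := hTOT O ev.1 ev.2.1 ev.2.2 q hq hpos
  · obtain ⟨x, hx⟩ := h4
    refine ⟨q1, h1, h2, h3, fun X hX u hu => ?_⟩
    obtain ⟨t, ht⟩ := hu x
    rw [hx X hX t] at ht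
    cases ht
  · obtain ⟨q2, g1, g2, g3, g4⟩ := hMAJ O ev.1 ev.2.1 ev.2.2 q1 h1 h2 g hg h4 k hk
    exact ⟨q2, g1, g2, g3.trans h3, g4⟩

instance countable_recT (A : ℕ → ℕ) : Countable {f : ℕ → ℕ // RecT {(A : ℕ →. ℕ)} f} := by
  have h1 : ∀ f : {f : ℕ → ℕ // RecT {(A : ℕ →. ℕ)} f}, ∃ ev : {F : ℕ → ℕ | Computable F},
      ∀ x y, y = f.1 x ↔ ∃ n, (Encodable.decode (α := Option ℕ)
        (ev.1 (Nat.pair (Encodable.encode (pre A n)) x))).getD none = some y := by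
    intro f
    obtain ⟨ev, h1, h2, h3⟩ := use_principle A _ f.2
    have a1 : Computable (fun z : ℕ => (Encodable.decode (α := List ℕ) z.unpair.1).getD []) :=
      Computable.option_getD (Computable.decode.comp (Computable.fst.comp Computable.unpair))
        (Computable.const [])
    refine ⟨⟨fun z => Encodable.encode
      (ev ((Encodable.decode (α := List ℕ) z.unpair.1).getD []) z.unpair.2),
      Computable.encode.comp (h1.comp a1 (Computable.snd.comp Computable.unpair))⟩, fun x y => ?_⟩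
    have h4 := h3 x y
    simp only [Part.mem_some_iff] at h4
    rw [h4]
    simp
  choose F hF using h1
  have := countable_comp.to_subtype
  refine Function.Injective.countable (f := F) fun f g h => ?_
  apply Subtype.ext
  funext x
  have h1 := (hF f x (f.1 x)).1 rfl
  rw [h] at h1
  exact (hF g x (f.1 x)).2 h1

lemma tr_G0 {u : ℕ → ℕ} {X : ℕ → Bool} (h : TR u (hat X)) : ∃ ev : Fun, Conv ev.1 X u := by
  obtain ⟨ev, hev⟩ := exists_fun (G := G0) (X := X) (h.trans (TR_join_right G0 (hat X)))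
  exact ⟨ev, fun i => (hev i (u i)).1 rfl⟩

theorem main_of (hTOT : S_TOT) (hRAN : S_RAN) (hMAJ : S_MAJ) (hRED : S_RED) (hIND : S_IND) :
    S_MAIN := by
  intro A B
  set OA : Set (ℕ →. ℕ) := {((hat A : ℕ → ℕ) : ℕ →. ℕ)} with hOA
  set OB : Set (ℕ →. ℕ) := {((hat B : ℕ → ℕ) : ℕ →. ℕ)} with hOB
  let ι : Type := ((Fun × ℕ) ⊕ (Fun × ℕ)) ⊕ (((Fun × ℕ) ⊕ (Fun × ℕ)) ⊕
    (({f : ℕ → ℕ // RecT OA f} × ℕ) ⊕ ({f : ℕ → ℕ // RecT OB f} × ℕ)))
  have : Countable ι := by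
    have := countable_recT (hat A)
    have := countable_recT (hat B)
    infer_instance
  let Req : ι → Set Pl := Sum.elim
    (Sum.elim (fun p => Prod.fst ⁻¹' App OA p.1.1 (p.2 + 1))
      (fun p => Prod.swap ⁻¹' (Prod.fst ⁻¹' App OB p.1.1 (p.2 + 1))))
    (Sum.elim
      (Sum.elim (fun p => Ind p.1.1 (p.2 + 1)) (fun p => Prod.swap ⁻¹' (Ind p.1.1 (p.2 + 1))))
      (Sum.elim (fun p => Prod.fst ⁻¹' Ran p.1.1 (p.2 + 1))
        (fun p => Prod.swap ⁻¹' (Prod.fst ⁻¹' Ran p.1.1 (p.2 + 1)))))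
  have hstep : ∀ K ∈ {K : Set Pl | IsCond OA OB K}, ∀ i, ∃ K' ∈ {K : Set Pl | IsCond OA OB K},
      K' ⊆ K ∧ K' ⊆ Req i := by
    intro K hK i
    rcases i with (⟨ev, k⟩ | ⟨ev, k⟩) | ((⟨ev, k⟩ | ⟨ev, k⟩) | (⟨v, k⟩ | ⟨v, k⟩))
    · exact step_fst hRED (step_app hTOT hMAJ ev (Nat.succ_le_succ (Nat.zero_le k))) hK
    · exact step_swap (fun K hK => step_fst hRED
        (step_app hTOT hMAJ ev (Nat.succ_le_succ (Nat.zero_le k))) hK) hK
    · exact hIND OA OB ev.1 ev.2.1 ev.2.2 (k + 1) (Nat.succ_le_succ (Nat.zero_le k)) K hK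
    · exact step_swap (fun K hK => hIND OB OA ev.1 ev.2.1 ev.2.2 (k + 1)
        (Nat.succ_le_succ (Nat.zero_le k)) K hK) hK
    · exact step_fst hRED (fun q hq hpos => hRAN OA v.1 v.2 q hq hpos (k + 1)
        (Nat.succ_le_succ (Nat.zero_le k))) hK
    · exact step_swap (fun K hK => step_fst hRED (fun q hq hpos => hRAN OB v.1 v.2 q hq hpos
        (k + 1) (Nat.succ_le_succ (Nat.zero_le k))) hK) hK
  have hF : ∀ O : Set (ℕ →. ℕ), RP O (fun _ => False) := fun O => by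
    refine RP.congr (RP.lt (recT_const 0) (recT_const 0)) (fun n => by simp)
  have hU : Cl (fun _ => False) = Set.univ := by ext X; simp [Cl]
  have hU2 : Cl2 (fun _ => False) = Set.univ := by ext X; simp [Cl2]
  obtain ⟨⟨C, D⟩, -, hreq⟩ := fusion2 (C := {K : Set Pl | IsCond OA OB K})
    (fun K hK => hK.nonempty) (fun K hK => hK.isClosed) Req hstep
    (K0 := (Cl (fun _ => False) ×ˢ Cl (fun _ => False)) ∩ Cl2 (fun _ => False))
    ⟨fun _ => False, fun _ => False, fun _ => False, hF _, hF _, hF _, rfl, by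
      rw [hU, hU2, Set.univ_prod_univ, Set.inter_univ, measure_univ]; norm_num⟩
  refine ⟨C, D, ?_, ?_, ?_, ?_, ?_, ?_⟩
  · intro k hk u hu
    obtain ⟨ev, hev⟩ := tr_G0 hu
    obtain ⟨l, rfl⟩ : ∃ l, k = l + 1 := ⟨k - 1, by omega⟩
    exact hreq (Sum.inl (Sum.inl (ev, l))) u hev
  · intro k hk v hv
    obtain ⟨l, rfl⟩ : ∃ l, k = l + 1 := ⟨k - 1, by omega⟩
    exact hreq (Sum.inr (Sum.inr (Sum.inl (⟨v, hv⟩, l))))
  · intro k hk u hu
    obtain ⟨ev, hev⟩ := tr_G0 hu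
    obtain ⟨l, rfl⟩ : ∃ l, k = l + 1 := ⟨k - 1, by omega⟩
    exact hreq (Sum.inl (Sum.inr (ev, l))) u hev
  · intro k hk v hv
    obtain ⟨l, rfl⟩ : ∃ l, k = l + 1 := ⟨k - 1, by omega⟩
    exact hreq (Sum.inr (Sum.inr (Sum.inr (⟨v, hv⟩, l))))
  · intro k hk u hu
    obtain ⟨ev, hev⟩ := tr_G0 hu
    obtain ⟨l, rfl⟩ : ∃ l, k = l + 1 := ⟨k - 1, by omega⟩
    exact hreq (Sum.inr (Sum.inl (Sum.inl (ev, l)))) u hev
  · intro k hk u hu
    obtain ⟨ev, hev⟩ := tr_G0 hu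
    obtain ⟨l, rfl⟩ : ∃ l, k = l + 1 := ⟨k - 1, by omega⟩
    exact hreq (Sum.inr (Sum.inl (Sum.inr (ev, l)))) u hev

end Pool.Agent.Q205.DG
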