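import Pool.Agent.Q205.DG.Defs

set_option autoImplicit false

/-!
# Project DG: statements of the lemma jobs, with proofs

All models for the Lean proofs are in `Pool.Agent.H166R3.HD` (`Step.lean`: `step_random`,
`Rand.lean`: `cm_dis`, `ss_measure`, `step_unpred`, `Hyper.lean`: `st`, `hyper`).
-/

namespace Pool.Agent.Q205.DG

open Pool.Agent.Helper743 Pool.Agent.H166R3.HD
open MeasureTheory Filter Topology
open scoped Classical ENNReal

/-- RHO. Put `s = (k+1)/k`. `Far k d m` means `2d > m + m/k`, so `s^(2d) ≥ (s * s^(1/k))^m` (real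
power `s^(1/k)`). Take `ρ = (1+s^2)/(2 s s^(1/k))`. It is `< 1`: `(1+s^2)/(2s) = 1 + 1/(2k(k+1))`,
its `k`-th power is at most `exp (1/(2(k+1)))`, and `s = 1 + 1/k ≥ exp (1/(k+1))` because
`log x ≥ 1 - 1/x`. -/
def S_RHO : Prop := ∀ k : ℕ, 1 ≤ k → ∃ ρ : ℝ, 0 < ρ ∧ ρ < 1 ∧ ∀ d m : ℕ, Far k d m →
  (1 + (((k : ℝ) + 1) / k) ^ 2) ^ m ≤ (2 * ρ) ^ m * (((k : ℝ) + 1) / k) ^ (2 * d)

/-- TAIL. From RHO: for every real `t`, `∑ K < 2^m, t^(dis v m K) = (1+t)^m` (as `sum_pow_dis` in
`HD/Rand.lean`), with `t = s^2`; then as in `card_dis`, `cm_dis`. -/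
def S_TAIL : Prop := ∀ k : ℕ, 1 ≤ k → ∃ ρ : ℝ, 0 < ρ ∧ ρ < 1 ∧ ∀ (v : ℕ → ℕ) (m : ℕ),
  cm.real {X | Far k (dis v m (enc X m)) m} ≤ ρ ^ m

/-- TOT. This is the proof of `step_random` in `HD/Step.lean`, with the stronger conclusion which
that proof gives (see `hkey` there): either the functional diverges at one argument on the whole
class, or its convergence is bounded by one function recursive in `O` on the whole class. -/
def S_TOT : Prop := ∀ (O : Set (ℕ →. ℕ)) (ev : List ℕ → ℕ → Option ℕ), Computable₂ ev → Mono ev →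
  ∀ q : ℕ → Prop, RP O q → 0 < cm (Cl q) →
  ∃ q' : ℕ → Prop, RP O q' ∧ 0 < cm (Cl q') ∧ Cl q' ⊆ Cl q ∧
    ((∃ x, ∀ X ∈ Cl q', ∀ n, ev (pre (J G0 X) n) x = none) ∨
      ∃ g : ℕ → ℕ, RecT O g ∧ ∀ X ∈ Cl q', ∀ x, ∃ y, ev (pre (J G0 X) (g x)) x = some y)

/-- RAN. Take `q' z = q z ∨ ∃ m < z.unpair.1 + 1, N ≤ m ∧ Far k (dis v m (z.unpair.2 % 2^m)) m` for
`N` so large that `∑ m ≥ N, ρ^m < cm (Cl q)` (TAIL); `Cl q'` contains `Cl q` minus the union of the
sets `{X | Far k (dis v m (enc X m)) m}`, `m ≥ N`. `dis` is recursive in `v` by `RecT.count`. -/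
def S_RAN : Prop := ∀ (O : Set (ℕ →. ℕ)) (v : ℕ → ℕ), RecT O v → ∀ q : ℕ → Prop, RP O q →
  0 < cm (Cl q) → ∀ k, 1 ≤ k →
  ∃ q' : ℕ → Prop, RP O q' ∧ 0 < cm (Cl q') ∧ Cl q' ⊆ Cl q ∧ Cl q' ⊆ Ran v k

/-- MAJ (weighted majority). One may assume `g` monotone (replace it by `x ↦ ∑ i < x+1, g i`, `Mono
ev`). Put `s = (k+1)/k`. For a point `X` and `n`, `X` is alive at `n` if `ev` converges at all
`i < n` within `g i` bits of `X`; then `u_X i` is the value. Define `v n ∈ {0,1}` by recursion:
`E n X` is the number of `i < n` with `¬ (u_X i = 1 ↔ v i = 1)`, the weight of `X` is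
`(k+1)^(2 * E n X) * k^(2 * (n - E n X))` (a natural number; it is `k^(2n) s^(2 E n X)`), and
`v n = 1` if the sum of the weights of the codes `K < 2^(g n)` of the strings of length `g n` which
are alive at `n + 1` and have `u n = 1` is at least the sum over the alive codes with `u n ≠ 1`.
`v` is recursive in `O` (primitive recursion on the code `∑ i < n, v i * 2^i`; sums over `K < b`
by `RecT.prec`, as `RecT.count`).  Let `P n` be the integral (or finite sum divided by `2^(g n)`) of
`s^(2 E n X)` over the set of the points `X` which are alive at `n`.  By the choice of `v n`,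
`P (n+1) ≤ (1+s^2)/2 * P n`, so `P n ≤ ((1+s^2)/2)^n`, and by RHO the set of the `X` which are alive
at `n` with `Far k (E n X) n` has measure at most `ρ^n`.  Let `N` be such that
`∑ n ≥ N, ρ^n < cm (Cl q)`, and let `q'` be `q` or: at the level `t`, for some `n < t + 1` with
`N ≤ n`, `g n ≤ t`, the string is alive at `n` and `Far k (E n) n` (compare `step_random`). On
`Cl q'` all points are alive for ever and `¬ Far k (E n X) n` for all `n ≥ N`; `E n X = dd u v n`
for the `u` with `Conv ev X u` (`Mono ev`). -/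
def S_MAJ : Prop := ∀ (O : Set (ℕ →. ℕ)) (ev : List ℕ → ℕ → Option ℕ), Computable₂ ev → Mono ev →
  ∀ q : ℕ → Prop, RP O q → 0 < cm (Cl q) → ∀ g : ℕ → ℕ, RecT O g →
  (∀ X ∈ Cl q, ∀ x, ∃ y, ev (pre (J G0 X) (g x)) x = some y) → ∀ k, 1 ≤ k →
  ∃ q' : ℕ → Prop, RP O q' ∧ 0 < cm (Cl q') ∧ Cl q' ⊆ Cl q ∧ Cl q' ⊆ App O ev k

/-- RED (reduction to one coordinate). Let `K` be the intersection, closed, `0 < cm2 K`. There are
`j` and codes `a, b < 2^j` such that the rectangle `D = {X | enc X j = a} × {Y | enc Y j = b}` has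
`cm2 (D ∩ K) ≥ 7/8 * cm2 D` (regularity or the approximation of `K` from outside by the clopen level
sets: `K` is the decreasing intersection of the level sets `L n` of the pairs whose first `n` bits
satisfy none of `q1, q2, w` up to length `n`, so `cm2 (L n \ K) < 1/8 * cm2 (L n)` for some
`n`, and `L n` is a disjoint union of rectangles of level `n`; one of them is as wanted). Let
`q2' = q2` or `enc Y j ≠ b` at levels `≥ j`, so `Cl q2' = Cl q2 ∩ {Y | enc Y j = b}`. Let `q1'` be
`q1`, or `enc X j ≠ a` at levels `≥ j`, or at the level `t ≥ j` the number of the codes `l < 2^t`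
with `l % 2^j = b` and `∃ n < t+1, w (pair n (pair (enc X n) (l % 2^n)))` is `> 2^(t-j)/2`.
So `Cl q1'` is the set of `X ∈ Cl q1` with `enc X j = a` such that
`cm {Y | enc Y j = b ∧ (X, Y) ∉ Cl2 w} ≤ 2^(-j)/2`. By Fubini `cm (Cl q1') ≥ 3/4 * 2^(-j)`. For
every `X ∈ Cl q1'`, `cm {Y ∈ Cl q2' | (X,Y) ∈ Cl2 w} ≥ (7/8 - 1/2) 2^(-j)`, because
`cm (Cl q2') ≥ 7/8 * 2^(-j)`; so every measurable `R ⊆ Cl q1'` of positive measure is good
(`Measure.prod_apply`). -/
def S_RED : Prop := ∀ (O1 O2 : Set (ℕ →. ℕ)) (q1 q2 w : ℕ → Prop), RP O1 q1 → RP O2 q2 → RP ∅ w →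
  0 < cm2 ((Cl q1 ×ˢ Cl q2) ∩ Cl2 w) →
  ∃ q1' q2' : ℕ → Prop, RP O1 q1' ∧ RP O2 q2' ∧ Cl q1' ⊆ Cl q1 ∧ Cl q2' ⊆ Cl q2 ∧
    0 < cm (Cl q1') ∧ ∀ R : Set (ℕ → Bool), MeasurableSet R → R ⊆ Cl q1' → 0 < cm R →
      0 < cm2 ((R ×ˢ Cl q2') ∩ Cl2 w)

/-- IND. Given `K` from `q1, q2, w`, let `w' z = w z` or, `z` being the code of a pair of strings of
length `t`: there is `m < t+1`, `N ≤ m`, with `ev` convergent for all `i < m` on the first string
(`0 < Encodable.encode (ev (seg G0 t k) i)`) and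
`Far k (dis (fun i => Encodable.encode (ev (seg G0 t K) i) - 1) m L) m`, for large `N`.
For every fixed `X` the measure of the `Y` such that some level of `(X, Y)` satisfies the new part is
at most `∑ m ≥ N, ρ^m` (TAIL with `v = u_X`; `Mono ev`: the values do not depend on `t`), so it is
small for large `N`, and `cm2` of the new condition is positive (`Measure.prod_apply`). On the new
class: if `Conv ev X u` then `¬ Far k (disX u m Y) m` for all `m ≥ N`. Compare `DD`, `rp_ss` in
`HD/Rand.lean`. -/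
def S_IND : Prop := ∀ (O1 O2 : Set (ℕ →. ℕ)) (ev : List ℕ → ℕ → Option ℕ), Computable₂ ev →
  Mono ev → ∀ k, 1 ≤ k → ∀ K, IsCond O1 O2 K → ∃ K', IsCond O1 O2 K' ∧ K' ⊆ K ∧ K' ⊆ Ind ev k

/-- MAIN. What the forcing gives, for points `A, B` of Cantor space. -/
def S_MAIN : Prop := ∀ A B : ℕ → Bool, ∃ C D : ℕ → Bool,
  (∀ k, 1 ≤ k → ∀ u : ℕ → ℕ, TR u (hat C) → ∃ v : ℕ → ℕ, TR v (hat A) ∧ (∀ i, v i ≤ 1) ∧
    ∃ n, ∀ m ≥ n, ¬ Far k (dd u v m) m) ∧
  (∀ k, 1 ≤ k → ∀ v : ℕ → ℕ, TR v (hat A) → ∃ n, ∀ m ≥ n, ¬ Far k (disX v m C) m) ∧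
  (∀ k, 1 ≤ k → ∀ u : ℕ → ℕ, TR u (hat D) → ∃ v : ℕ → ℕ, TR v (hat B) ∧ (∀ i, v i ≤ 1) ∧
    ∃ n, ∀ m ≥ n, ¬ Far k (dd u v m) m) ∧
  (∀ k, 1 ≤ k → ∀ v : ℕ → ℕ, TR v (hat B) → ∃ n, ∀ m ≥ n, ¬ Far k (disX v m D) m) ∧
  (∀ k, 1 ≤ k → ∀ u : ℕ → ℕ, TR u (hat C) → ∃ n, ∀ m ≥ n, ¬ Far k (disX u m D) m) ∧
  (∀ k, 1 ≤ k → ∀ u : ℕ → ℕ, TR u (hat D) → ∃ n, ∀ m ≥ n, ¬ Far k (disX u m C) m)

/-! ### the graph -/

/-- the characteristic function of a set of natural numbers -/
noncomputable def chi (A : Set ℕ) (n : ℕ) : ℕ := if n ∈ A then 1 else 0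

/-- Turing reducibility of sets of natural numbers -/
def Le (A B : Set ℕ) : Prop :=
  TuringReducible (fun n => Part.some (chi A n)) (fun n => Part.some (chi B n))

theorem Le.refl (A : Set ℕ) : Le A A := TuringReducible.refl _

theorem Le.trans {A B C : Set ℕ} (h : Le A B) (h' : Le B C) : Le A C := TuringReducible.trans h h'

/-- Turing equivalence -/
def degSetoid : Setoid (Set ℕ) where
  r A B := Le A B ∧ Le B A
  iseqv := ⟨fun A => ⟨Le.refl A, Le.refl A⟩, fun h => ⟨h.2, h.1⟩,
    fun h h' => ⟨h.1.trans h'.1, h'.2.trans h.2⟩⟩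

/-- the set of the Turing degrees (of sets of natural numbers) -/
def Degree : Type := Quotient degSetoid

/-- the degree of a set -/
def deg (A : Set ℕ) : Degree := Quotient.mk degSetoid A

/-- the classes (in the metric space of the coarse similarity classes) of the sets whose degree is
at most `d` -/
def low (d : Degree) : Set Pool.Agent.H454R3.Att.CoarseSpace :=
  {x | ∃ A D : Set ℕ, deg D = d ∧ Le A D ∧ x = Pool.Agent.H454R3.Att.cls A}

/-- the Hausdorff distance of the closures -/
noncomputable def H (a b : Degree) : ℝ := Metric.hausdorffDist (closure (low a)) (closure (low b))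

/-- the graph: two distinct degrees are adjacent iff their distance is `1/2` -/
noncomputable def graph : SimpleGraph Degree where
  Adj a b := a ≠ b ∧ H a b = 1 / 2
  symm := ⟨fun a b h => ⟨h.1.symm, by unfold H at *; rw [Metric.hausdorffDist_comm]; exact h.2⟩⟩
  loopless := ⟨fun a h => h.1 rfl⟩

/-- HH. From the closeness properties of MAIN to the value `1/2`.  If every `u ≤_T A` is coarsely
within `1/2 + 1/(2k)`, for all `k`, of some `v ≤_T C` and conversely, then the distance is at most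
`1/2` (`Metric.hausdorffDist_le_of_infDist`, the distance to a closure; every point of the closure
is a limit of classes of sets; `Metric.hausdorffDist_closure` removes the closures).  For the lower
bound: `C` itself is within `1/2 + 1/(2k)` of the complement of every set `v ≤_T A`, so the number
of `i < m` with `C i = v i` is not `Far`, so `δ(C, v) ≥ 1/2 - 1/(2k)` for all `k`; so the distance of
`cls C` to the closure of `low A` is at least `1/2`. Here `F X` is the set with the characteristic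
function `X`. -/
def S_HH : Prop := ∀ A C : ℕ → Bool,
  (∀ k, 1 ≤ k → ∀ u : ℕ → ℕ, TR u (hat C) → ∃ v : ℕ → ℕ, TR v (hat A) ∧ (∀ i, v i ≤ 1) ∧
    ∃ n, ∀ m ≥ n, ¬ Far k (dd u v m) m) →
  (∀ k, 1 ≤ k → ∀ v : ℕ → ℕ, TR v (hat A) → ∃ n, ∀ m ≥ n, ¬ Far k (disX v m C) m) →
  graph.Adj (deg {n | A n = true}) (deg {n | C n = true})

/-- DIS. Blocks with factorial ends: if `X` and `Y` are complementary on `[e!, (e+1)!)` for
infinitely many `e` then `δ(X, Y) ≥ 1`, and if this holds for one fixed `X ≤_T A` and all `Y ≤_T C`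
then `H (deg A) (deg C) ≥ 1` (`Pool.Agent.H454R3.Att.one_le_hausdorff`, `delta_triangle` and
`Metric.mem_closure_iff` for the closure). -/
def S_DIS : Prop := ∀ A C X : Set ℕ, Le X A →
  (∀ Y : Set ℕ, Le Y C → ∀ N, ∃ e ≥ N, ∀ x, Nat.factorial e ≤ x → x < Nat.factorial (e + 1) →
    (x ∈ X ↔ x ∉ Y)) → 1 ≤ H (deg A) (deg C)

/-- L1. A hyperimmune `C` (it computes `f`, not bounded by a computable function) computes a set `X`
which is complementary to every computable set on infinitely many blocks `[e!, (e+1)!)`. Proof: let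
`f' n = max_{i ≤ n} f i`. On the block number `n = Nat.pair e j` the set `X` is the complement of
what the program `e` gives in `f' n` steps. If the program `e` computes the characteristic function
of `Y`, the time `t j` for the block number `Nat.pair e j` is computable, and `t j ≤ f' (Nat.pair e
j)` for infinitely many `j`, for otherwise `f i ≤ f' (Nat.pair e i) < t i` for almost all `i`. -/
def S_L1 : Prop := ∀ (C : Set ℕ) (f : ℕ → ℕ), TR f (chi C) →
  (∀ g : ℕ → ℕ, Computable g → ∃ n, g n < f n) →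
  ∃ X : Set ℕ, Le X C ∧ ∀ Y : Set ℕ, ComputablePred (fun n => n ∈ Y) → ∀ N, ∃ e ≥ N,
    ∀ x, Nat.factorial e ≤ x → x < Nat.factorial (e + 1) → (x ∈ X ↔ x ∉ Y)

/-- L2. There are sets `Z` and `X ≤_T Z` (`Z` may be the halting set) such that every set `Y` which
is not complementary to `X` on infinitely many blocks `[e!, (e+1)!)` computes a function which no
computable function bounds. Proof: with the attempts `st e s` of `HD/Hyper.lean` (`run`, `Dv`,
`st_stay`, `st_unique`, `st_next`, `st_all`): the attempt number `j` against the program `e` has the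
argument `Nat.pair e s`, where `st e s = Nat.pair j s`; the next attempt begins when the program has
converged at this argument. Let `M e = 2 ^ (number of elements of the block e)`. Let `i e` be the
least `i < M e` such that for no `s` is `i < (st e s).unpair.1`, i.e. the attempt number `i`
does not end (`0` if there is none). On the block `e` let `X` be given by the bits of `i e`. It is
computable in the halting set. Let `Y` be complementary to `X` on no block `e ≥ N`. Let `F n` for
`n = Nat.pair e s`, `e ≥ N`, be: if `st e s = Nat.pair j s` for some `j < M e` such that `Y` on the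
block `e` is the complement of the bits of `j`, the value of the program `e` at `n` plus one (this
converges, otherwise `j = i e` and `Y` is the complement of `X` on the block), and `0` in all other
cases. `F` is computable in `Y`. If `g` is computable, take a program `e ≥ N` for `g` (padding) and
the `j < M e` such that `Y` on the block `e` is the complement of the bits of `j`; the attempt
number `j` exists (`st_all`), and at its argument `F` is larger than `g`. -/
def S_L2 : Prop := ∃ Z X : Set ℕ, Le X Z ∧ ∀ Y : Set ℕ,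
  (∀ N, ∃ e ≥ N, ∀ x, Nat.factorial e ≤ x → x < Nat.factorial (e + 1) → (x ∈ X ↔ x ∉ Y)) ∨
  ∃ f : ℕ → ℕ, TR f (chi Y) ∧ ∀ g : ℕ → ℕ, Computable g → ∃ n, g n < f n

end Pool.Agent.Q205.DG
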